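import Pool.Agent.N207.HG.Stm

/-!
# Monodromy matrices form a monoid (HG-MON)
-/

set_option autoImplicit false

open Matrix Polynomial

namespace Pool.Agent.N157.HG

open Pool.Agent.N207.HG

theorem an_mul {n : ℕ} {V : Set ℂ} {F : ℂ → Matrix (Fin n) (Fin n) ℂ} (h : Matrix (Fin n) (Fin n) ℂ)
    (hF : ∀ a b, AnalyticOnNhd ℂ (fun z => F z a b) V) (a b : Fin n) :
    AnalyticOnNhd ℂ (fun z => (F z * h) a b) V := by
  simp only [Matrix.mul_apply]
  exact Finset.analyticOnNhd_fun_sum _ fun c _ => (hF a c).mul analyticOnNhd_const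

theorem ch_mul {n : ℕ} {D : Set ℂ} {Y : ℂ → Matrix (Fin n) (Fin n) ℂ} {h : Matrix (Fin n) (Fin n) ℂ}
    (hD : Ch D Y D (fun z => Y z * h)) {V : Set ℂ} {F : ℂ → Matrix (Fin n) (Fin n) ℂ} (hc : Ch D Y V F) :
    Ch D Y V (fun z => F z * h) := by
  induction hc with
  | base => exact hD
  | step _ ho hp ha hWo hWn hWV hWV' he ih =>
    refine Ch.step ih ho hp (an_mul h ha) hWo hWn hWV hWV' fun z hz => ?_
    simp only [he z hz]

theorem ch_conj {n : ℕ} {D : Set ℂ} {Y : ℂ → Matrix (Fin n) (Fin n) ℂ} (O : Matrix (Fin n) (Fin n) ℂ)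
    {V : Set ℂ} {F : ℂ → Matrix (Fin n) (Fin n) ℂ} (hc : Ch D Y V F) :
    Ch D (fun z => Y z * O) V (fun z => F z * O) := by
  induction hc with
  | base => exact Ch.base
  | step _ ho hp ha hWo hWn hWV hWV' he ih =>
    refine Ch.step ih ho hp (an_mul O ha) hWo hWn hWV hWV' fun z hz => ?_
    simp only [he z hz]

theorem mon : S_MON := by
  intro n D Y hDo hDp hDn hY
  refine ⟨⟨D, D, Y, Ch.base, hDo, hDn, subset_rfl, subset_rfl, fun z _ => (mul_one _).symm⟩, ?_, ?_⟩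
  · rintro g h ⟨V, W, F, hc, hWo, hWn, hWV, hWD, he⟩ ⟨V2, W2, F2, hc2, hWo2, hWn2, hWV2, hWD2, he2⟩
    have h1 : Ch D Y D (fun z => Y z * h) :=
      Ch.step hc2 hDo hDp (an_mul h hY) hWo2 hWn2 hWV2 hWD2 fun z hz => (he2 z hz).symm
    refine ⟨V, W, _, ch_mul h1 hc, hWo, hWn, hWV, hWD, fun z hz => ?_⟩
    rw [he z hz, mul_assoc]
  · rintro g O Oi hO ⟨V, W, F, hc, hWo, hWn, hWV, hWD, he⟩
    refine ⟨V, W, _, ch_conj O hc, hWo, hWn, hWV, hWD, fun z hz => ?_⟩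
    rw [he z hz]
    calc Y z * g * O = Y z * (1 * g * O) := by rw [one_mul, mul_assoc]
      _ = Y z * (O * Oi * g * O) := by rw [hO]
      _ = Y z * O * (Oi * g * O) := by simp only [mul_assoc]

end Pool.Agent.N157.HG
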