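import Pool.Agent.N207.HG.Stm

/-!
# Nonresonance of companion matrices (HG-NRS)
-/

set_option autoImplicit false

open Matrix Polynomial

namespace Pool.Agent.N157.HG

open Pool.Agent.N207.HG
open Pool.Agent.Y985.OR (Mat)

/-- the row vectors `e_k` -/
theorem row_pow (n : ℕ) (P : ℝ[X]) (hn : 0 < n) : ∀ k (hk : k < n),
    (Pi.single (⟨0, hn⟩ : Fin n) (1 : ℂ)) ᵥ* (N207.HG.cmp n P) ^ k = Pi.single (⟨k, hk⟩ : Fin n) 1 := by
  intro k
  induction k with
  | zero =>
    intro hk
    rw [pow_zero, Matrix.vecMul_one]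
  | succ k ih =>
    intro hk
    rw [pow_succ, ← Matrix.vecMul_vecMul, ih (by omega), Matrix.single_one_vecMul]
    funext j
    simp only [Matrix.row_apply, N207.HG.cmp, Matrix.of_apply, if_pos hk, Pi.single_apply, Fin.ext_iff]

/-- Cayley-Hamilton for the companion matrix -/
theorem aeval_cmp (n : ℕ) (P : ℝ[X]) (hP : P.Monic) (hd : P.natDegree = n) :
    aeval (N207.HG.cmp n P) (P.map (algebraMap ℝ ℂ)) = 0 := by
  rcases Nat.eq_zero_or_pos n with h0 | hn
  · subst h0
    exact Subsingleton.elim _ _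
  set p : ℂ[X] := P.map (algebraMap ℝ ℂ) with hp
  have hpm : p.Monic := hP.map _
  have hpd : p.natDegree = n := by rw [hp, hP.natDegree_map, hd]
  set N := N207.HG.cmp n P with hN
  set M := aeval N p with hM
  have hMs : M = N ^ n + ∑ j ∈ Finset.range n, (P.coeff j : ℂ) • N ^ j := by
    rw [hM, hpm.as_sum, hpd]
    simp only [map_add, map_pow, aeval_X, map_sum, map_mul, aeval_C, hp, coeff_map]
    congr 1
    refine Finset.sum_congr rfl fun j _ => ?_
    rw [← Algebra.smul_def]
    rfl
  have hcomm : ∀ k, N ^ k * M = M * N ^ k := by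
    intro k
    have h1 : N ^ k = aeval N (X ^ k : ℂ[X]) := by simp
    rw [h1, hM, ← map_mul, ← map_mul, mul_comm]
  have h0M : (Pi.single (⟨0, hn⟩ : Fin n) (1 : ℂ)) ᵥ* M = 0 := by
    have h1 : (Pi.single (⟨0, hn⟩ : Fin n) (1 : ℂ)) ᵥ* N ^ n = fun j : Fin n => -(P.coeff j : ℂ) := by
      obtain ⟨m, rfl⟩ : ∃ m, n = m + 1 := ⟨n - 1, by omega⟩
      rw [pow_succ, ← Matrix.vecMul_vecMul, hN, row_pow _ P hn m (by omega), Matrix.single_one_vecMul]
      funext j
      simp only [Matrix.row_apply, N207.HG.cmp, Matrix.of_apply]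
      rw [if_neg (by omega)]
    rw [hMs, Matrix.vecMul_add, h1]
    funext j
    rw [Pi.add_apply, Matrix.vecMul_sum, Finset.sum_apply]
    have h2 : ∀ i ∈ Finset.range n, ((Pi.single (⟨0, hn⟩ : Fin n) (1 : ℂ)) ᵥ* ((P.coeff i : ℂ) • N ^ i)) j =
        if i = j then (P.coeff j : ℂ) else 0 := by
      intro i hi
      rw [Matrix.vecMul_smul, hN, row_pow _ P hn i (Finset.mem_range.1 hi), Pi.smul_apply, Pi.single_apply,
        smul_eq_mul]
      by_cases h : i = j
      · subst h
        simp
      · rw [if_neg h, if_neg, mul_zero]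
        intro h3
        exact h (by rw [h3])
    rw [Finset.sum_congr rfl h2, Finset.sum_ite_eq', if_pos (Finset.mem_range.2 j.2)]
    simp
  ext i j
  have h3 : (Pi.single i (1 : ℂ)) ᵥ* M = 0 := by
    rw [← row_pow n P hn i i.2, ← hN, Matrix.vecMul_vecMul, hcomm, ← Matrix.vecMul_vecMul, h0M,
      Matrix.zero_vecMul]
  rw [Matrix.single_one_vecMul] at h3
  exact congrFun h3 j

theorem comm_poly {n : ℕ} {N L X : Mat n} (h : X * L = N * X) (p : ℂ[X]) :
    X * aeval L p = aeval N p * X := by
  have hs : ∀ k, X * L ^ k = N ^ k * X := by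
    intro k
    induction k with
    | zero => simp
    | succ k ih => rw [pow_succ, ← mul_assoc, ih, mul_assoc, h, ← mul_assoc, ← pow_succ]
  rw [aeval_eq_sum_range, aeval_eq_sum_range, Finset.mul_sum, Finset.sum_mul]
  refine Finset.sum_congr rfl fun k _ => ?_
  rw [Matrix.mul_smul, Matrix.smul_mul, hs]

theorem zero_of_comm {n : ℕ} {N X : Mat n} {p : ℂ[X]} {c : ℂ} (hp : aeval N p = 0)
    (hc : ∀ x, p.eval x = 0 → p.eval (x + c) ≠ 0) (h : X * (N + c • 1) = N * X) : X = 0 := by
  have h1 := comm_poly h p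
  rw [hp, zero_mul] at h1
  have hcop : IsCoprime p (p.comp (Polynomial.X + C c)) := by
    rw [Polynomial.isCoprime_iff_aeval_ne_zero_of_isAlgClosed ℂ ℂ]
    intro a
    by_cases h0 : aeval a p = 0
    · right
      rw [coe_aeval_eq_eval] at h0 ⊢
      rw [eval_comp]
      simpa using hc a h0
    · exact Or.inl h0
  obtain ⟨u, v, huv⟩ := hcop
  have h2 := congrArg (aeval N) huv
  rw [map_add, map_mul, map_mul, hp, mul_zero, zero_add, map_one, aeval_comp] at h2
  have h3 : aeval N (Polynomial.X + C c : ℂ[X]) = N + c • 1 := by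
    rw [map_add, aeval_X, aeval_C, Algebra.algebraMap_eq_smul_one]
  rw [h3] at h2
  have h4 : aeval N v * aeval (N + c • 1) p = aeval (N + c • 1) p * aeval N v := by
    have h5 : aeval (N + c • 1) p = aeval N (p.comp (Polynomial.X + C c)) := by rw [aeval_comp, h3]
    rw [h5, ← map_mul, ← map_mul, mul_comm]
  rw [h4] at h2
  calc X = X * (aeval (N + c • 1) p * aeval N v) := by rw [h2, mul_one]
    _ = 0 := by rw [← mul_assoc, h1, zero_mul]

theorem nrs : S_NRS := by
  refine ⟨fun n P hP hd hr => ?_, fun n B t hB ht k X hX => ?_⟩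
  · have h0 := aeval_cmp n P hP hd
    have hev : ∀ x : ℂ, (P.map (algebraMap ℝ ℂ)).eval x = aeval x P := fun x => by
      rw [eval_map_algebraMap]
    constructor
    · intro k X hX
      refine zero_of_comm (c := (k : ℂ) + 1) h0 (fun x hx hx' => ?_) ?_
      · rw [hev] at hx hx'
        exact hr x _ hx hx' k (by ring)
      · rw [mul_add, Matrix.mul_smul, mul_one]
        have h1 : X * N207.HG.cmp n P + ((k : ℂ) + 1) • X - N207.HG.cmp n P * X = 0 := by
          rw [← hX]; abel
        exact sub_eq_zero.1 h1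
    · intro k X hX
      refine zero_of_comm (c := -((k : ℂ) + 1)) h0 (fun x hx hx' => ?_) ?_
      · rw [hev] at hx hx'
        exact hr _ x hx' hx k (by ring)
      · rw [mul_add, Matrix.mul_smul, mul_one]
        have h1 : X * N207.HG.cmp n P + -((k : ℂ) + 1) • X - N207.HG.cmp n P * X = 0 := by
          have h2 : X * N207.HG.cmp n P + -((k : ℂ) + 1) • X - N207.HG.cmp n P * X =
            -(((k : ℂ) + 1) • X + (X * (-N207.HG.cmp n P) - (-N207.HG.cmp n P) * X)) := by
            rw [mul_neg, neg_mul, neg_smul]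
            abel
          rw [h2, hX, neg_zero]
        exact sub_eq_zero.1 h1
  · set c : ℂ := (k : ℂ) + 1 with hc
    have hc0 : c ≠ 0 := Nat.cast_add_one_ne_zero k
    obtain ⟨ht1, ht2⟩ := ht k
    rw [← hc] at ht1 ht2
    have e1 : X * B = B * X - c • X := by
      have h1 : X * B - (B * X - c • X) = c • X + (X * B - B * X) := by abel
      exact sub_eq_zero.1 (h1.trans hX)
    have e2 : B * (X * B) = (t - c) • (B * X) := by
      rw [e1, mul_sub, ← mul_assoc, hB, Matrix.smul_mul, Matrix.mul_smul, sub_smul]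
    have e3 : (X * B) * B = (t - 2 * c) • (B * X) + (c ^ 2) • X := by
      rw [e1, sub_mul, mul_assoc, e2, Matrix.smul_mul, e1]
      module
    have e4 : (X * B) * B = t • (B * X) - (t * c) • X := by
      rw [mul_assoc, hB, Matrix.mul_smul, e1]
      module
    have e5 : (2 : ℂ) • (B * X) = (c + t) • X := by
      have h1 : c • ((2 : ℂ) • (B * X) - (c + t) • X) = 0 := by
        have h2 : c • ((2 : ℂ) • (B * X) - (c + t) • X) =
          (t • (B * X) - (t * c) • X) - ((t - 2 * c) • (B * X) + (c ^ 2) • X) := by module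
        rw [h2, ← e3, ← e4, sub_self]
      exact sub_eq_zero.1 ((smul_eq_zero.1 h1).resolve_left hc0)
    have e6 : B * X = 0 := by
      have h1 : (2 : ℂ) • (B * (B * X)) = (c + t) • (B * X) := by
        rw [← Matrix.mul_smul, e5, Matrix.mul_smul]
      rw [← mul_assoc, hB, Matrix.smul_mul] at h1
      have h2 : (t - c) • (B * X) = 0 := by
        have h3 : (t - c) • (B * X) = (2 : ℂ) • (t • (B * X)) - (c + t) • (B * X) := by module
        rw [h3, h1, sub_self]
      exact (smul_eq_zero.1 h2).resolve_left (sub_ne_zero.2 (Ne.symm ht1))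
    rw [e6, smul_zero] at e5
    refine (smul_eq_zero.1 e5.symm).resolve_left fun h => ht2 ?_
    linear_combination h

end Pool.Agent.N157.HG
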